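import Pool.Agent.H14.AVR.Stmts

/-!
# Module LAT of project AVR: the lattice of a point over a subring
-/

set_option autoImplicit false

namespace Pool.AVR

open Polynomial Matrix

namespace Lat

variable {K : Type} [Field K]

theorem cub_deg (a b c : K) : (cub a b c).natDegree = 3 ∧ (cub a b c).Monic := by
  have h1 : (cub a b c).natDegree = 3 := by
    unfold cub
    compute_degree!
  refine ⟨h1, ?_⟩
  unfold Monic leadingCoeff
  rw [h1]
  unfold cub
  simp [coeff_X, coeff_C]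

/-- `tau` as a linear map -/
noncomputable def t (a b c : K) : K[X] →ₗ[K] K := (lcoeff K 2).comp (modByMonicHom (cub a b c))

theorem t_eq (a b c : K) (p : K[X]) : t a b c p = tau a b c p := rfl

theorem t_low (a b c : K) (p : K[X]) (hp : p.degree < 3) : t a b c p = p.coeff 2 := by
  rw [t_eq]
  unfold tau
  rw [(modByMonic_eq_self_iff (cub_deg a b c).2).2]
  rw [degree_eq_natDegree (cub_deg a b c).2.ne_zero, (cub_deg a b c).1]
  exact hp

theorem t_C (a b c e : K) : t a b c (C e) = 0 := by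
  rw [t_low a b c _ (lt_of_le_of_lt degree_C_le (by norm_num))]
  simp [coeff_C]

theorem t_X (a b c : K) : t a b c X = 0 := by
  rw [t_low a b c _ (lt_of_le_of_lt degree_X_le (by norm_num))]
  simp [coeff_X]

theorem t_X2 (a b c : K) : t a b c (X ^ 2) = 1 := by
  rw [t_low a b c _ (lt_of_le_of_lt (degree_X_pow_le 2) (by norm_num))]
  simp [coeff_X_pow]

theorem t_mul (a b c : K) (q : K[X]) : t a b c (cub a b c * q) = 0 := by
  rw [t_eq]
  unfold tau
  rw [self_mul_modByMonic (cub_deg a b c).2, coeff_zero]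

theorem t_Cmul (a b c e : K) (q : K[X]) : t a b c (C e * q) = e * t a b c q := by
  rw [← smul_eq_C_mul, map_smul, smul_eq_mul]

theorem t_X3 (a b c : K) : t a b c (X ^ 3) = -a := by
  have h1 : (X ^ 3 : K[X]) = cub a b c * 1 - C a * X ^ 2 - C b * X - C c := by
    unfold cub
    ring
  rw [h1, map_sub, map_sub, map_sub, t_mul, t_Cmul, t_Cmul, t_X2, t_X, t_C]
  ring

section

variable {a b c x y : K}

theorem hh_inv (hy : y ≠ 0) (hc : OnC a b c x y) :
    (C x - X) * hh a b x y = 1 - cub a b c * C ((y ^ 2)⁻¹) := by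
  have h1 : (C ((y ^ 2)⁻¹) : K[X]) * C (x ^ 3 + a * x ^ 2 + b * x + c) = 1 := by
    rw [← C_mul, ← hc, inv_mul_cancel₀ (pow_ne_zero 2 hy), C_1]
  unfold hh cub
  simp only [map_add, map_mul, map_pow] at h1 ⊢
  linear_combination h1

theorem step (hy : y ≠ 0) (hc : OnC a b c x y) (q : K[X]) :
    t a b c (X * (q * hh a b x y)) = x * t a b c (q * hh a b x y) - t a b c q := by
  have h1 : X * (q * hh a b x y) =
      C x * (q * hh a b x y) - (q - cub a b c * (q * C ((y ^ 2)⁻¹))) := by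
    have h2 := hh_inv hy hc
    linear_combination (-q) * h2
  rw [h1, map_sub, map_sub, t_Cmul, t_mul, sub_zero]

theorem T0 : t a b c (hh a b x y) = (y ^ 2)⁻¹ := by
  unfold hh
  rw [t_Cmul, map_add, map_add, t_Cmul, t_X2, t_X, t_C]
  ring

theorem T1 (hy : y ≠ 0) (hc : OnC a b c x y) : t a b c (X * hh a b x y) = x * (y ^ 2)⁻¹ := by
  have h1 := step hy hc 1
  rw [one_mul] at h1
  rw [h1, T0, ← C_1, t_C, sub_zero]

theorem T2 (hy : y ≠ 0) (hc : OnC a b c x y) :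
    t a b c (X ^ 2 * hh a b x y) = x ^ 2 * (y ^ 2)⁻¹ := by
  have h1 := step hy hc X
  have h2 : X ^ 2 * hh a b x y = X * (X * hh a b x y) := by ring
  rw [h2, h1, T1 hy hc, t_X]
  ring

theorem T3 (hy : y ≠ 0) (hc : OnC a b c x y) :
    t a b c (X ^ 3 * hh a b x y) = x ^ 3 * (y ^ 2)⁻¹ - 1 := by
  have h1 := step hy hc (X ^ 2)
  have h2 : X ^ 3 * hh a b x y = X * (X ^ 2 * hh a b x y) := by ring
  rw [h2, h1, T2 hy hc, t_X2]
  ring

theorem T4 (hy : y ≠ 0) (hc : OnC a b c x y) :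
    t a b c (X ^ 4 * hh a b x y) = x ^ 4 * (y ^ 2)⁻¹ - x + a := by
  have h1 := step hy hc (X ^ 3)
  have h2 : X ^ 4 * hh a b x y = X * (X ^ 3 * hh a b x y) := by ring
  rw [h2, h1, T3 hy hc, t_X3]
  ring

end

end Lat

/-- LAT -/
theorem lat_thm : LATStmt := by
  intro K _ O a b c u v w r s ha hb hc hu hv hw hr hs hw0 hv0 hrs hcurve
  set x : K := u / w ^ 2 with hx
  set y : K := v / w ^ 3 with hy
  have hy0 : y ≠ 0 := div_ne_zero hv0 (pow_ne_zero 3 hw0)
  have hon : OnC a b c x y := by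
    unfold OnC
    rw [hx, hy]
    field_simp
    linear_combination hcurve
  set ρ : K := r ^ 2 * u with hρ
  set k : K := u * s * (1 + r * w) with hk
  have hρO : ρ ∈ O := O.mul_mem (O.pow_mem hr 2) hu
  have hkO : k ∈ O := O.mul_mem (O.mul_mem hu hs) (O.add_mem O.one_mem (O.mul_mem hr hw))
  have hkv : u - w ^ 2 * ρ = k * v := by
    rw [hρ, hk]
    linear_combination (-(u * (1 + r * w))) * hrs
  have nat_mem : ∀ m : ℕ, (m : K) ∈ O := fun m => natCast_mem O m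
  -- the entry `(1, 2)`
  set g : K := (k ^ 2 * u - 1) / w ^ 2 with hg
  have hgw : w ^ 2 * g = k ^ 2 * u - 1 := by
    rw [hg]
    field_simp
  have hgO : g ∈ O := by
    have h1 : v ^ 2 * (k ^ 2 * u - 1) = w ^ 2 * (-(a * u ^ 2 + b * u * w ^ 2 + c * w ^ 4) -
        2 * u ^ 2 * ρ + u * w ^ 2 * ρ ^ 2) := by
      have h2 : (u - w ^ 2 * ρ) ^ 2 = (k * v) ^ 2 := by rw [hkv]
      linear_combination (-u) * h2 - hcurve
    have h3 : v ^ 2 * g = -(a * u ^ 2 + b * u * w ^ 2 + c * w ^ 4) -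
        2 * u ^ 2 * ρ + u * w ^ 2 * ρ ^ 2 := by
      have h4 : w ^ 2 ≠ 0 := pow_ne_zero 2 hw0
      apply mul_left_cancel₀ h4
      rw [← h1, ← hgw]
      ring
    have h5 : g = (k ^ 2 * u - 1) * (r ^ 3 * w + 3 * r ^ 2 * s * v) +
        (3 * r * w * s ^ 2 + s ^ 3 * v) * (-(a * u ^ 2 + b * u * w ^ 2 + c * w ^ 4) -
        2 * u ^ 2 * ρ + u * w ^ 2 * ρ ^ 2) := by
      rw [← h3, ← hgw]
      have h6 : (r * w + s * v) ^ 3 = 1 := by rw [hrs, one_pow]
      linear_combination (-g) * h6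
    rw [h5]
    have h3m : (3:K) ∈ O := by exact_mod_cast nat_mem 3
    have h2m : (2:K) ∈ O := by exact_mod_cast nat_mem 2
    have e1 : k ^ 2 * u - 1 ∈ O := O.sub_mem (O.mul_mem (O.pow_mem hkO 2) hu) O.one_mem
    have e2 : r ^ 3 * w + 3 * r ^ 2 * s * v ∈ O :=
      O.add_mem (O.mul_mem (O.pow_mem hr 3) hw)
        (O.mul_mem (O.mul_mem (O.mul_mem h3m (O.pow_mem hr 2)) hs) hv)
    have e3 : 3 * r * w * s ^ 2 + s ^ 3 * v ∈ O :=
      O.add_mem (O.mul_mem (O.mul_mem (O.mul_mem h3m hr) hw) (O.pow_mem hs 2))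
        (O.mul_mem (O.pow_mem hs 3) hv)
    have e4 : -(a * u ^ 2 + b * u * w ^ 2 + c * w ^ 4) - 2 * u ^ 2 * ρ + u * w ^ 2 * ρ ^ 2 ∈ O :=
      O.add_mem (O.sub_mem (O.neg_mem (O.add_mem (O.add_mem (O.mul_mem ha (O.pow_mem hu 2))
        (O.mul_mem (O.mul_mem hb hu) (O.pow_mem hw 2))) (O.mul_mem hc (O.pow_mem hw 4))))
        (O.mul_mem (O.mul_mem h2m (O.pow_mem hu 2)) hρO))
        (O.mul_mem (O.mul_mem hu (O.pow_mem hw 2)) (O.pow_mem hρO 2))
    exact O.add_mem (O.mul_mem e1 e2) (O.mul_mem e3 e4)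
  -- the entry `(2, 2)`
  set N : K := (a + 2 * ρ) * w ^ 2 - u + k ^ 2 * u ^ 2 with hN
  set l : K := N / w ^ 4 with hl
  have hlw : w ^ 4 * l = N := by
    rw [hl]
    field_simp
  have h2m : (2:K) ∈ O := by exact_mod_cast nat_mem 2
  have hNO : N ∈ O :=
    O.add_mem (O.sub_mem (O.mul_mem (O.add_mem ha (O.mul_mem h2m hρO)) (O.pow_mem hw 2)) hu)
      (O.mul_mem (O.pow_mem hkO 2) (O.pow_mem hu 2))
  have hlO : l ∈ O := by
    have h1 : v ^ 2 * N = w ^ 4 * ((a + 2 * ρ) * (a * u ^ 2 + b * u * w ^ 2 + c * w ^ 4) -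
        b * u ^ 2 - c * u * w ^ 2 + u ^ 2 * ρ ^ 2) := by
      have h2 : (u - w ^ 2 * ρ) ^ 2 = (k * v) ^ 2 := by rw [hkv]
      rw [hN]
      linear_combination (-u ^ 2) * h2 + ((a + 2 * ρ) * w ^ 2 - u) * hcurve
    have h3 : v ^ 2 * l = (a + 2 * ρ) * (a * u ^ 2 + b * u * w ^ 2 + c * w ^ 4) -
        b * u ^ 2 - c * u * w ^ 2 + u ^ 2 * ρ ^ 2 := by
      have h4 : w ^ 4 ≠ 0 := pow_ne_zero 4 hw0
      apply mul_left_cancel₀ h4
      rw [← h1, ← hlw]
      ring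
    have h5 : l = N * (r ^ 5 * w + 5 * r ^ 4 * s * v) +
        (10 * r ^ 3 * w ^ 3 * s ^ 2 + 10 * r ^ 2 * w ^ 2 * s ^ 3 * v + 5 * r * w * s ^ 4 * v ^ 2 +
          s ^ 5 * v ^ 3) * ((a + 2 * ρ) * (a * u ^ 2 + b * u * w ^ 2 + c * w ^ 4) -
        b * u ^ 2 - c * u * w ^ 2 + u ^ 2 * ρ ^ 2) := by
      rw [← h3, ← hlw]
      have h6 : (r * w + s * v) ^ 5 = 1 := by rw [hrs, one_pow]
      linear_combination (-l) * h6
    rw [h5]
    have h5m : (5:K) ∈ O := by exact_mod_cast nat_mem 5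
    have h10m : (10:K) ∈ O := by exact_mod_cast nat_mem 10
    have e2 : r ^ 5 * w + 5 * r ^ 4 * s * v ∈ O :=
      O.add_mem (O.mul_mem (O.pow_mem hr 5) hw)
        (O.mul_mem (O.mul_mem (O.mul_mem h5m (O.pow_mem hr 4)) hs) hv)
    have e3 : 10 * r ^ 3 * w ^ 3 * s ^ 2 + 10 * r ^ 2 * w ^ 2 * s ^ 3 * v +
        5 * r * w * s ^ 4 * v ^ 2 + s ^ 5 * v ^ 3 ∈ O :=
      O.add_mem (O.add_mem (O.add_mem
        (O.mul_mem (O.mul_mem (O.mul_mem h10m (O.pow_mem hr 3)) (O.pow_mem hw 3)) (O.pow_mem hs 2))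
        (O.mul_mem (O.mul_mem (O.mul_mem (O.mul_mem h10m (O.pow_mem hr 2)) (O.pow_mem hw 2))
          (O.pow_mem hs 3)) hv))
        (O.mul_mem (O.mul_mem (O.mul_mem (O.mul_mem h5m hr) hw) (O.pow_mem hs 4)) (O.pow_mem hv 2)))
        (O.mul_mem (O.pow_mem hs 5) (O.pow_mem hv 3))
    have e4 : (a + 2 * ρ) * (a * u ^ 2 + b * u * w ^ 2 + c * w ^ 4) -
        b * u ^ 2 - c * u * w ^ 2 + u ^ 2 * ρ ^ 2 ∈ O :=
      O.add_mem (O.sub_mem (O.sub_mem (O.mul_mem (O.add_mem ha (O.mul_mem h2m hρO))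
        (O.add_mem (O.add_mem (O.mul_mem ha (O.pow_mem hu 2))
        (O.mul_mem (O.mul_mem hb hu) (O.pow_mem hw 2))) (O.mul_mem hc (O.pow_mem hw 4))))
        (O.mul_mem hb (O.pow_mem hu 2))) (O.mul_mem (O.mul_mem hc hu) (O.pow_mem hw 2)))
        (O.mul_mem (O.pow_mem hu 2) (O.pow_mem hρO 2))
    exact O.add_mem (O.mul_mem hNO e2) (O.mul_mem e3 e4)
  -- `f (ρ) / v`
  set z : K := r ^ 6 * v + a * ρ ^ 2 * s * (1 + r * w) +
    b * ρ * s * (1 + r * w) * (1 + (r * w) ^ 2) +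
    c * s * (1 + r * w) * (1 + (r * w) ^ 2 + (r * w) ^ 4) with hz
  have hzv : v * z = ρ ^ 3 + a * ρ ^ 2 + b * ρ + c := by
    rw [hz, hρ]
    linear_combination (r ^ 6) * hcurve + (a * (r ^ 2 * u) ^ 2 * (1 + r * w) +
      b * (r ^ 2 * u) * (1 + r * w) * (1 + (r * w) ^ 2) +
      c * (1 + r * w) * (1 + (r * w) ^ 2 + (r * w) ^ 4)) * hrs
  have hrwO : r * w ∈ O := O.mul_mem hr hw
  have h1rw : 1 + r * w ∈ O := O.add_mem O.one_mem hrwO
  have hzO : z ∈ O :=
    O.add_mem (O.add_mem (O.add_mem (O.mul_mem (O.pow_mem hr 6) hv)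
      (O.mul_mem (O.mul_mem (O.mul_mem ha (O.pow_mem hρO 2)) hs) h1rw))
      (O.mul_mem (O.mul_mem (O.mul_mem (O.mul_mem hb hρO) hs) h1rw)
        (O.add_mem O.one_mem (O.pow_mem hrwO 2))))
      (O.mul_mem (O.mul_mem (O.mul_mem hc hs) h1rw)
        (O.add_mem (O.add_mem O.one_mem (O.pow_mem hrwO 2)) (O.pow_mem hrwO 4)))
  set e0 : K[X] := C (v / w) with he0
  set e1 : K[X] := C (1 / w) * (X - C ρ) with he1
  set e2 : K[X] := X * e1 with he2
  set h : K[X] := hh a b x y with hh'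
  have hyi : (y ^ 2)⁻¹ = w ^ 6 / v ^ 2 := by
    rw [hy, div_pow, inv_div]
    congr 1
    ring
  have hxρ : x = (k * v + w ^ 2 * ρ) / w ^ 2 := by
    rw [hx, ← hkv]
    ring
  have hu' : u = k * v + w ^ 2 * ρ := by rw [← hkv]; ring
  have t0 := Lat.T0 (a := a) (b := b) (c := c) (x := x) (y := y)
  have t1 := Lat.T1 hy0 hon
  have t2 := Lat.T2 hy0 hon
  have t3 := Lat.T3 hy0 hon
  have t4 := Lat.T4 hy0 hon
  rw [hyi] at t0 t1 t2 t3 t4
  have G00 : Lat.t a b c (e0 * e0 * h) = w ^ 4 := by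
    have h1 : e0 * e0 * h = C ((v / w) ^ 2) * h := by
      rw [he0, pow_two, C_mul]
    rw [h1, Lat.t_Cmul, t0]
    field_simp
  have G01 : Lat.t a b c (e0 * e1 * h) = w ^ 2 * k := by
    have h1 : e0 * e1 * h = C (v / w * (1 / w)) * (X * h) - C (v / w * (1 / w) * ρ) * h := by
      rw [he0, he1]
      simp only [C_mul]
      ring
    rw [h1, map_sub, Lat.t_Cmul, Lat.t_Cmul, t0, t1, hxρ]
    field_simp
    ring
  have G11 : Lat.t a b c (e1 * e1 * h) = k ^ 2 := by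
    have h1 : e1 * e1 * h = C (1 / w * (1 / w)) * (X ^ 2 * h) -
        C (1 / w * (1 / w) * (2 * ρ)) * (X * h) + C (1 / w * (1 / w) * ρ ^ 2) * h := by
      rw [he1]
      simp only [C_mul, C_pow, map_ofNat]
      ring
    rw [h1, map_add, map_sub, Lat.t_Cmul, Lat.t_Cmul, Lat.t_Cmul, t0, t1, t2, hxρ]
    field_simp
    ring
  have G02 : Lat.t a b c (e0 * e2 * h) = k * u := by
    have h1 : e0 * e2 * h = C (v / w * (1 / w)) * (X ^ 2 * h) -
        C (v / w * (1 / w) * ρ) * (X * h) := by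
      rw [he0, he2, he1]
      simp only [C_mul]
      ring
    rw [h1, map_sub, Lat.t_Cmul, Lat.t_Cmul, t1, t2, hxρ, hu']
    field_simp
    ring
  have G12 : Lat.t a b c (e1 * e2 * h) = g := by
    have h1 : e1 * e2 * h = C (1 / w * (1 / w)) * (X ^ 3 * h) -
        C (1 / w * (1 / w) * (2 * ρ)) * (X ^ 2 * h) +
        C (1 / w * (1 / w) * ρ ^ 2) * (X * h) := by
      rw [he2, he1]
      simp only [C_mul, C_pow, map_ofNat]
      ring
    rw [h1, map_add, map_sub, Lat.t_Cmul, Lat.t_Cmul, Lat.t_Cmul, t1, t2, t3, hg, hxρ, hu']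
    field_simp
    ring
  have G22 : Lat.t a b c (e2 * e2 * h) = l := by
    have h1 : e2 * e2 * h = C (1 / w * (1 / w)) * (X ^ 4 * h) -
        C (1 / w * (1 / w) * (2 * ρ)) * (X ^ 3 * h) +
        C (1 / w * (1 / w) * ρ ^ 2) * (X ^ 2 * h) := by
      rw [he2, he1]
      simp only [C_mul, C_pow, map_ofNat]
      ring
    rw [h1, map_add, map_sub, Lat.t_Cmul, Lat.t_Cmul, Lat.t_Cmul, t2, t3, t4, hl, hN, hxρ, hu']
    field_simp
    ring
  -- multiplication by `X`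
  have X0 : X * e0 = C v * e1 + C ρ * e0 := by
    have h1 : (C (v / w) : K[X]) = C v * C (1 / w) := by
      rw [← C_mul]
      congr 1
      ring
    rw [he0, he1, h1]
    ring
  have X1 : X * e1 = e2 := rfl
  have X2 : X * e2 = cub a b c * C (1 / w) - C z * e0 - C (ρ ^ 2 + a * ρ + b) * e1 -
      C (ρ + a) * e2 := by
    have h1 : (C z * e0 : K[X]) = C (1 / w) * C (ρ ^ 3 + a * ρ ^ 2 + b * ρ + c) := by
      rw [he0, ← hzv, ← C_mul, ← C_mul]
      congr 1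
      ring
    rw [h1, he2, he1]
    unfold cub
    simp only [C_add, C_mul, C_pow]
    ring
  have B00 : Lat.t a b c (X * (e0 * e0 * h)) = v * (w ^ 2 * k) + ρ * w ^ 4 := by
    have h1 : X * (e0 * e0 * h) = C v * (e0 * e1 * h) + C ρ * (e0 * e0 * h) := by
      linear_combination (e0 * h) * X0
    rw [h1, map_add, Lat.t_Cmul, Lat.t_Cmul, G01, G00]
  have B01 : Lat.t a b c (X * (e0 * e1 * h)) = v * k ^ 2 + ρ * (w ^ 2 * k) := by
    have h1 : X * (e0 * e1 * h) = C v * (e1 * e1 * h) + C ρ * (e0 * e1 * h) := by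
      linear_combination (e1 * h) * X0
    rw [h1, map_add, Lat.t_Cmul, Lat.t_Cmul, G11, G01]
  have B11 : Lat.t a b c (X * (e1 * e1 * h)) = g := by
    have h1 : X * (e1 * e1 * h) = e1 * e2 * h := by
      linear_combination (e1 * h) * X1
    rw [h1, G12]
  have B02 : Lat.t a b c (X * (e0 * e2 * h)) = v * g + ρ * (k * u) := by
    have h1 : X * (e0 * e2 * h) = C v * (e1 * e2 * h) + C ρ * (e0 * e2 * h) := by
      linear_combination (e2 * h) * X0
    rw [h1, map_add, Lat.t_Cmul, Lat.t_Cmul, G12, G02]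
  have B12 : Lat.t a b c (X * (e1 * e2 * h)) = l := by
    have h1 : X * (e1 * e2 * h) = e2 * e2 * h := by
      linear_combination (e2 * h) * X1
    rw [h1, G22]
  have B22 : Lat.t a b c (X * (e2 * e2 * h)) =
      -(z * (k * u)) - (ρ ^ 2 + a * ρ + b) * g - (ρ + a) * l := by
    have h1 : X * (e2 * e2 * h) = cub a b c * (C (1 / w) * (e2 * h)) - C z * (e0 * e2 * h) -
        C (ρ ^ 2 + a * ρ + b) * (e1 * e2 * h) - C (ρ + a) * (e2 * e2 * h) := by
      linear_combination (e2 * h) * X2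
    rw [h1, map_sub, map_sub, map_sub, Lat.t_mul, Lat.t_Cmul, Lat.t_Cmul, Lat.t_Cmul, G02, G12, G22]
    ring
  have kuO : k * u ∈ O := O.mul_mem hkO hu
  have wkO : w ^ 2 * k ∈ O := O.mul_mem (O.pow_mem hw 2) hkO
  let e : Fin 3 → K[X] := ![e0, e1, e2]
  refine ⟨Matrix.of fun i j => tau a b c (e i * e j * h),
    Matrix.of fun i j => tau a b c (X * (e i * e j * h)), ⟨e, fun i j => rfl, fun i j => rfl⟩,
    ?_, ?_, ?_⟩
  · have key : ∀ i j, Lat.t a b c (e i * e j * h) ∈ O := by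
      intro i j
      fin_cases i <;> fin_cases j
      · show Lat.t a b c (e0 * e0 * h) ∈ O
        rw [G00]; exact O.pow_mem hw 4
      · show Lat.t a b c (e0 * e1 * h) ∈ O
        rw [G01]; exact wkO
      · show Lat.t a b c (e0 * e2 * h) ∈ O
        rw [G02]; exact kuO
      · show Lat.t a b c (e1 * e0 * h) ∈ O
        rw [mul_comm e1 e0, G01]; exact wkO
      · show Lat.t a b c (e1 * e1 * h) ∈ O
        rw [G11]; exact O.pow_mem hkO 2
      · show Lat.t a b c (e1 * e2 * h) ∈ O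
        rw [G12]; exact hgO
      · show Lat.t a b c (e2 * e0 * h) ∈ O
        rw [mul_comm e2 e0, G02]; exact kuO
      · show Lat.t a b c (e2 * e1 * h) ∈ O
        rw [mul_comm e2 e1, G12]; exact hgO
      · show Lat.t a b c (e2 * e2 * h) ∈ O
        rw [G22]; exact hlO
    exact key
  · have b00 : v * (w ^ 2 * k) + ρ * w ^ 4 ∈ O :=
      O.add_mem (O.mul_mem hv wkO) (O.mul_mem hρO (O.pow_mem hw 4))
    have b01 : v * k ^ 2 + ρ * (w ^ 2 * k) ∈ O :=
      O.add_mem (O.mul_mem hv (O.pow_mem hkO 2)) (O.mul_mem hρO wkO)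
    have b02 : v * g + ρ * (k * u) ∈ O := O.add_mem (O.mul_mem hv hgO) (O.mul_mem hρO kuO)
    have b22 : -(z * (k * u)) - (ρ ^ 2 + a * ρ + b) * g - (ρ + a) * l ∈ O :=
      O.sub_mem (O.sub_mem (O.neg_mem (O.mul_mem hzO kuO))
        (O.mul_mem (O.add_mem (O.add_mem (O.pow_mem hρO 2) (O.mul_mem ha hρO)) hb) hgO))
        (O.mul_mem (O.add_mem hρO ha) hlO)
    have key : ∀ i j, Lat.t a b c (X * (e i * e j * h)) ∈ O := by
      intro i j
      fin_cases i <;> fin_cases j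
      · show Lat.t a b c (X * (e0 * e0 * h)) ∈ O
        rw [B00]; exact b00
      · show Lat.t a b c (X * (e0 * e1 * h)) ∈ O
        rw [B01]; exact b01
      · show Lat.t a b c (X * (e0 * e2 * h)) ∈ O
        rw [B02]; exact b02
      · show Lat.t a b c (X * (e1 * e0 * h)) ∈ O
        rw [mul_comm e1 e0, B01]; exact b01
      · show Lat.t a b c (X * (e1 * e1 * h)) ∈ O
        rw [B11]; exact hgO
      · show Lat.t a b c (X * (e1 * e2 * h)) ∈ O
        rw [B12]; exact hlO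
      · show Lat.t a b c (X * (e2 * e0 * h)) ∈ O
        rw [mul_comm e2 e0, B02]; exact b02
      · show Lat.t a b c (X * (e2 * e1 * h)) ∈ O
        rw [mul_comm e2 e1, B12]; exact hlO
      · show Lat.t a b c (X * (e2 * e2 * h)) ∈ O
        rw [B22]; exact b22
    exact key
  · rw [Matrix.det_fin_three]
    show Lat.t a b c (e0 * e0 * h) * Lat.t a b c (e1 * e1 * h) * Lat.t a b c (e2 * e2 * h) -
      Lat.t a b c (e0 * e0 * h) * Lat.t a b c (e1 * e2 * h) * Lat.t a b c (e2 * e1 * h) -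
      Lat.t a b c (e0 * e1 * h) * Lat.t a b c (e1 * e0 * h) * Lat.t a b c (e2 * e2 * h) +
      Lat.t a b c (e0 * e1 * h) * Lat.t a b c (e1 * e2 * h) * Lat.t a b c (e2 * e0 * h) +
      Lat.t a b c (e0 * e2 * h) * Lat.t a b c (e1 * e0 * h) * Lat.t a b c (e2 * e1 * h) -
      Lat.t a b c (e0 * e2 * h) * Lat.t a b c (e1 * e1 * h) * Lat.t a b c (e2 * e0 * h) = -1
    rw [mul_comm e1 e0, mul_comm e2 e0, mul_comm e2 e1, G00, G01, G02, G11, G12, G22]
    linear_combination (-(w ^ 2 * g - k ^ 2 * u) + 1) * hgw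

end Pool.AVR
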