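import Pool.Agent.H14.AVR.Stmts3

/-!
# Module LDT of project AVR: the local count
-/

set_option autoImplicit false

namespace Pool.AVR

open Polynomial Matrix

/-- the number of elements of a ring of length two -/
theorem ldt_card {R : Type} [CommRing R] [Finite R] {ϖ : R} (h : Len2 R ϖ) :
    Nat.card R = res ϖ ^ 2 := by
  let f : R →ₗ[R] R := LinearMap.mulLeft R ϖ
  have hker : LinearMap.ker f = Ideal.span {ϖ} := by
    ext x
    rw [LinearMap.mem_ker, Ideal.mem_span_singleton]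
    show ϖ * x = 0 ↔ ϖ ∣ x
    constructor
    · exact h.ann x
    · rintro ⟨y, rfl⟩
      rw [← mul_assoc, h.sq, zero_mul]
  have hrange : LinearMap.range f = Ideal.span {ϖ} := by
    ext x
    rw [LinearMap.mem_range, Ideal.mem_span_singleton]
    constructor
    · rintro ⟨y, rfl⟩
      exact ⟨y, rfl⟩
    · rintro ⟨y, rfl⟩
      exact ⟨y, rfl⟩
  have h1 : Nat.card (R ⧸ Ideal.span {ϖ}) = Nat.card (Ideal.span {ϖ} : Ideal R) := by
    have h2 := Nat.card_congr f.quotKerEquivRange.toEquiv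
    rw [hker, hrange] at h2
    exact h2
  have h3 := Submodule.card_eq_card_quotient_mul_card (Ideal.span {ϖ} : Ideal R)
  rw [h3, ← h1, pow_two]
  rfl

/-- LDT -/
theorem ldt_thm (hLDA : LDAStmt) (hLDB : LDBStmt) (hLDC : LDCStmt) (hLDN : LDNStmt) :
    LDTStmt := by
  intro R _ _ ϖ h h2 a b c hd
  refine ⟨?_, ldt_card h⟩
  have hA := hLDA R ϖ h h2 a b c
  have hB := hLDB R ϖ h h2 a b c
  obtain ⟨hC1, hC2⟩ := hLDC R ϖ h h2 a b c hd
  obtain ⟨hN1, hN2⟩ := hLDN R ϖ h h2 a b c hd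
  set S1 : Set (Matrix (Fin 3) (Fin 3) R) := {B ∈ Fib a b c | IsUnit (B 0 0)} with hS1
  set S2 : Set (Matrix (Fin 3) (Fin 3) R) :=
    {B ∈ Fib a b c | ¬ IsUnit (B 0 0) ∧ IsUnit (B 0 1)} with hS2
  set S3 : Set (Matrix (Fin 3) (Fin 3) R) :=
    {B ∈ Fib a b c | ¬ IsUnit (B 0 0) ∧ ¬ IsUnit (B 0 1)} with hS3
  have hsub : Fib a b c ⊆ (S1 ∪ S2) ∪ S3 := by
    intro B hB
    by_cases h0 : IsUnit (B 0 0)
    · exact Or.inl (Or.inl ⟨hB, h0⟩)
    · by_cases h1 : IsUnit (B 0 1)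
      · exact Or.inl (Or.inr ⟨hB, h0, h1⟩)
      · exact Or.inr ⟨hB, h0, h1⟩
  have hle : (Fib a b c).ncard ≤ S1.ncard + S2.ncard + S3.ncard :=
    (Set.ncard_le_ncard hsub (Set.toFinite _)).trans ((Set.ncard_union_le _ _).trans
      (Nat.add_le_add_right (Set.ncard_union_le _ _) _))
  set k : ℕ := res ϖ with hk
  have hk1 : 1 ≤ k := by
    have h3 : 0 < k := by
      rw [hk]
      unfold res
      have : Finite (R ⧸ (Ideal.span {ϖ} : Ideal R)) :=
        Finite.of_surjective (Ideal.Quotient.mk (Ideal.span {ϖ})) Ideal.Quotient.mk_surjective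
      exact Nat.card_pos
    exact h3
  clear_value k
  obtain ⟨j, hj⟩ : ∃ j, k = j + 1 := ⟨k - 1, by omega⟩
  clear hk
  subst hj
  have e1 : (j + 1) ^ 2 - (j + 1) = (j + 1) * j := by
    rw [Nat.sub_eq_iff_eq_add (by nlinarith)]
    ring
  have e2 : (j + 1) ^ 6 - (j + 1) ^ 4 = (j + 1) ^ 4 * (j * (j + 2)) := by
    rw [Nat.sub_eq_iff_eq_add (Nat.pow_le_pow_right (by omega) (by omega))]
    ring
  rw [e2]
  rw [e1] at hA hN2
  rw [Nat.add_sub_cancel] at hB hC2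
  by_cases hdbl : Dbl ϖ a b c
  · have h3 := hN2 hdbl
    have h4 := hA.trans (Nat.mul_le_mul_left _ h3)
    have h5 : (j + 1) ^ 2 * ((j + 1) * j) * ((j + 1) * j) = (j + 1) ^ 4 * (j * j) := by ring
    rw [h5] at h4
    have h6 : (j + 1) ^ 4 * (j * (j + 2)) = (j + 1) ^ 4 * (j * j) + (j + 1) ^ 4 * j +
      (j + 1) ^ 4 * j := by ring
    rw [h6]
    omega
  · have h3 := hN1 hdbl
    have h4 := hA.trans (Nat.mul_le_mul_left _ h3)
    have h5 : (j + 1) ^ 2 * ((j + 1) * j) * (j + 1) ^ 2 = (j + 1) ^ 4 * (j * (j + 1)) := by ring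
    rw [h5] at h4
    have h7 : S3.ncard = 0 := by rw [hC1 hdbl, Set.ncard_empty]
    have h6 : (j + 1) ^ 4 * (j * (j + 2)) = (j + 1) ^ 4 * (j * (j + 1)) + (j + 1) ^ 4 * j := by
      ring
    rw [h6]
    omega

end Pool.AVR
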