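import Pool.Agent.H14.AVR.Stmts2

/-!
# Module STE of project AVR: the stabilisers have at most eight elements
-/

set_option autoImplicit false

namespace Pool.AVR

open Polynomial Matrix

/-- diagonalisation over an algebraically closed field -/
theorem ste_diag {L : Type} [Field L] [IsAlgClosed L] (M : Matrix (Fin 3) (Fin 3) L)
    (hM : M.charpoly.Separable) : ∃ (P : Matrix (Fin 3) (Fin 3) L) (lam : Fin 3 → L),
      IsUnit P ∧ Function.Injective lam ∧ M * P = P * Matrix.diagonal lam := by
  classical
  have hcard : M.charpoly.roots.toFinset.card = 3 := by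
    rw [Multiset.toFinset_card_of_nodup (nodup_roots hM)]
    have h1 := splits_iff_card_roots.1 (IsAlgClosed.splits M.charpoly)
    rw [h1, M.charpoly_natDegree_eq_dim]
    rfl
  set s := M.charpoly.roots.toFinset with hs
  let e := s.equivFinOfCardEq hcard
  let lam : Fin 3 → L := fun i => (e.symm i : L)
  have hlam : Function.Injective lam := fun i j h => e.symm.injective (Subtype.ext h)
  have hroot : ∀ i, M.charpoly.eval (lam i) = 0 := by
    intro i
    have h1 : lam i ∈ s := (e.symm i).2
    rw [hs, Multiset.mem_toFinset] at h1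
    exact isRoot_of_mem_roots h1
  have hv : ∀ i, ∃ v : Fin 3 → L, v ≠ 0 ∧ M *ᵥ v = lam i • v := by
    intro i
    have h1 := hroot i
    rw [Matrix.eval_charpoly] at h1
    obtain ⟨v, hv0, hv⟩ := (Matrix.exists_mulVec_eq_zero_iff).2 h1
    refine ⟨v, hv0, ?_⟩
    rw [Matrix.sub_mulVec, sub_eq_zero] at hv
    rw [← hv]
    ext j
    simp [Matrix.scalar_apply, Matrix.mulVec_diagonal]
  choose v hv0 hv using hv
  have hli : LinearIndependent L v := by
    refine Module.End.eigenvectors_linearIndependent' (Matrix.toLin' M) lam hlam v fun i => ?_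
    rw [Module.End.hasEigenvector_iff, Module.End.mem_eigenspace_iff]
    exact ⟨by rw [Matrix.toLin'_apply]; exact hv i, hv0 i⟩
  refine ⟨Matrix.of fun i j => v j i, lam, ?_, hlam, ?_⟩
  · rw [← Matrix.linearIndependent_cols_iff_isUnit]
    exact hli
  · ext i j
    rw [Matrix.mul_diagonal]
    have h1 := congrFun (hv j) i
    simp only [Pi.smul_apply, smul_eq_mul] at h1
    show ∑ k, M i k * v j k = v j i * lam j
    rw [mul_comm, ← h1]
    rfl

/-- a matrix which commutes with a diagonal matrix with distinct entries is diagonal -/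
theorem ste_comm {L : Type} [Field L] {E : Matrix (Fin 3) (Fin 3) L} {lam : Fin 3 → L}
    (hlam : Function.Injective lam) (h : E * Matrix.diagonal lam = Matrix.diagonal lam * E) :
    E = Matrix.diagonal fun i => E i i := by
  ext i j
  by_cases hij : i = j
  · subst hij
    simp
  · rw [Matrix.diagonal_apply_ne _ hij]
    have h1 := congrFun (congrFun h i) j
    rw [Matrix.mul_diagonal, Matrix.diagonal_mul] at h1
    have h2 : (lam i - lam j) * E i j = 0 := by linear_combination -h1
    rcases mul_eq_zero.1 h2 with h3 | h3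
    · exact absurd (hlam (sub_eq_zero.1 h3)) hij
    · exact h3

theorem ste_AA (K : Type) [Field K] : (AA K) * (AA K) = 1 ∧ (AA K)ᵀ = AA K := by
  constructor
  · ext i j
    fin_cases i <;> fin_cases j <;> simp [AA, Matrix.mul_apply, Fin.sum_univ_three]
  · ext i j
    fin_cases i <;> fin_cases j <;> simp [AA]

/-- STE -/
theorem ste_thm : STEStmt := by
  classical
  intro K _ _ B hB hsep
  obtain ⟨hA2, hAT⟩ := ste_AA K
  let L := AlgebraicClosure K
  let φ : K →+* L := algebraMap K L
  have hφ : Function.Injective φ := φ.injective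
  set A' : Matrix (Fin 3) (Fin 3) L := (AA K).map φ with hA'
  set B' : Matrix (Fin 3) (Fin 3) L := B.map φ with hB'
  have hA2' : A' * A' = 1 := by
    rw [hA', ← Matrix.map_mul, hA2, Matrix.map_one _ φ.map_zero φ.map_one]
  have hBT' : B'ᵀ = B' := by
    rw [hB', ← Matrix.transpose_map, hB]
  have hAT' : A'ᵀ = A' := by
    rw [hA', ← Matrix.transpose_map, hAT]
  set M : Matrix (Fin 3) (Fin 3) L := A' * B' with hM
  have hMsep : M.charpoly.Separable := by
    have h1 : M = (AA K * B).map φ := by rw [hM, hA', hB', Matrix.map_mul]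
    rw [h1, Matrix.charpoly_map]
    exact hsep.map
  obtain ⟨P, lam, hP, hlam, hMP⟩ := ste_diag M hMsep
  obtain ⟨Q, hQ1, hQ2⟩ := isUnit_iff_exists.1 hP
  -- `Pᵀ A P` is diagonal
  have hAP : (Pᵀ * A' * P) * Matrix.diagonal lam = Matrix.diagonal lam * (Pᵀ * A' * P) := by
    have h1 : Mᵀ * A' = A' * M := by
      rw [hM, Matrix.transpose_mul, hAT', hBT', ← Matrix.mul_assoc A', hA2', Matrix.one_mul,
        Matrix.mul_assoc, hA2', Matrix.mul_one]
    have h2 : Pᵀ * Mᵀ = Matrix.diagonal lam * Pᵀ := by
      rw [← Matrix.transpose_mul, hMP, Matrix.transpose_mul, Matrix.diagonal_transpose]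
    calc (Pᵀ * A' * P) * Matrix.diagonal lam = Pᵀ * A' * (P * Matrix.diagonal lam) := by
          rw [Matrix.mul_assoc]
      _ = Pᵀ * (A' * M) * P := by rw [← hMP]; simp only [Matrix.mul_assoc]
      _ = (Pᵀ * Mᵀ) * A' * P := by rw [← h1]; simp only [Matrix.mul_assoc]
      _ = Matrix.diagonal lam * (Pᵀ * A' * P) := by rw [h2]; simp only [Matrix.mul_assoc]
  have hAd := ste_comm hlam hAP
  set α : Fin 3 → L := fun i => (Pᵀ * A' * P) i i with hα
  have hAu : IsUnit (Pᵀ * A' * P) := by
    have h1 : IsUnit A' := IsUnit.of_mul_eq_one A' hA2'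
    have h2 : IsUnit Pᵀ := (Matrix.isUnit_transpose P).2 hP
    exact (h2.mul h1).mul hP
  have hα0 : ∀ i, α i ≠ 0 := by
    rw [hAd, Matrix.isUnit_diagonal] at hAu
    intro i
    exact (Pi.isUnit_iff.1 hAu i).ne_zero
  let f : Matrix (Fin 3) (Fin 3) K → (Fin 3 → L) := fun g i => (Q * g.map φ * P) i i
  let t : Finset (Fin 3 → L) := Fintype.piFinset fun _ : Fin 3 => ({1, -1} : Finset L)
  set S : Set (Matrix (Fin 3) (Fin 3) K) :=
    {g | gᵀ * AA K * g = AA K ∧ gᵀ * B * g = B ∧ g.det = 1} with hS
  -- the main point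
  have key : ∀ g ∈ S, (Q * g.map φ * P) = Matrix.diagonal (f g) ∧ ∀ i, f g i ^ 2 = 1 := by
    rintro g ⟨h1, h2, -⟩
    set g' : Matrix (Fin 3) (Fin 3) L := g.map φ with hg'
    have h1' : g'ᵀ * A' * g' = A' := by
      rw [hA', hg', ← Matrix.transpose_map, ← Matrix.map_mul, ← Matrix.map_mul, h1]
    have h2' : g'ᵀ * B' * g' = B' := by
      rw [hB', hg', ← Matrix.transpose_map, ← Matrix.map_mul, ← Matrix.map_mul, h2]
    have h3 : (A' * g'ᵀ * A') * g' = 1 := by
      rw [← hA2']
      nth_rewrite 4 [← h1']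
      simp only [Matrix.mul_assoc]
    have h4 : g' * (A' * g'ᵀ * A') = 1 := mul_eq_one_comm.1 h3
    have h5 : M * g' = g' * M := by
      have h6 : g' * M = g' * (A' * g'ᵀ * A') * (A' * B') * g' := by
        rw [hM]
        nth_rewrite 1 [← h2']
        calc g' * (A' * (g'ᵀ * B' * g')) = g' * (A' * g'ᵀ * (1 * B') * g') := by
              rw [Matrix.one_mul]; simp only [Matrix.mul_assoc]
          _ = _ := by rw [← hA2']; simp only [Matrix.mul_assoc]
      rw [h6, h4, Matrix.one_mul]
    have h7 : (Q * g' * P) * Matrix.diagonal lam = Matrix.diagonal lam * (Q * g' * P) := by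
      have h8 : Q * M = Matrix.diagonal lam * Q := by
        calc Q * M = Q * (M * P) * Q := by
              rw [Matrix.mul_assoc, Matrix.mul_assoc, hQ1, Matrix.mul_one]
          _ = (Q * P) * Matrix.diagonal lam * Q := by rw [hMP]; simp only [Matrix.mul_assoc]
          _ = Matrix.diagonal lam * Q := by rw [hQ2, Matrix.one_mul]
      calc (Q * g' * P) * Matrix.diagonal lam = Q * g' * (P * Matrix.diagonal lam) := by
            rw [Matrix.mul_assoc]
        _ = Q * (g' * M) * P := by rw [← hMP]; simp only [Matrix.mul_assoc]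
        _ = (Q * M) * g' * P := by rw [← h5]; simp only [Matrix.mul_assoc]
        _ = Matrix.diagonal lam * (Q * g' * P) := by rw [h8]; simp only [Matrix.mul_assoc]
    have h9 := ste_comm hlam h7
    refine ⟨h9, ?_⟩
    have h10 : g' * P = P * Matrix.diagonal (f g) := by
      have : P * (Q * g' * P) = P * Matrix.diagonal (f g) := by
        conv_lhs => rw [h9]
      rw [← this, ← Matrix.mul_assoc, ← Matrix.mul_assoc, hQ1, Matrix.one_mul]
    have h11 : Matrix.diagonal (f g) * (Pᵀ * A' * P) * Matrix.diagonal (f g) = Pᵀ * A' * P := by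
      calc Matrix.diagonal (f g) * (Pᵀ * A' * P) * Matrix.diagonal (f g)
          = (Matrix.diagonal (f g) * Pᵀ) * A' * (P * Matrix.diagonal (f g)) := by
            simp only [Matrix.mul_assoc]
        _ = (P * Matrix.diagonal (f g))ᵀ * A' * (P * Matrix.diagonal (f g)) := by
            rw [Matrix.transpose_mul, Matrix.diagonal_transpose]
        _ = (g' * P)ᵀ * A' * (g' * P) := by rw [← h10]
        _ = Pᵀ * (g'ᵀ * A' * g') * P := by
            rw [Matrix.transpose_mul]; simp only [Matrix.mul_assoc]
        _ = _ := by rw [h1']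
    intro i
    have h12 := congrFun (congrFun h11 i) i
    rw [Matrix.mul_diagonal, Matrix.diagonal_mul] at h12
    have h13 : (f g i ^ 2 - 1) * α i = 0 := by
      rw [hα]
      linear_combination h12
    rcases mul_eq_zero.1 h13 with h14 | h14
    · exact sub_eq_zero.1 h14
    · exact absurd h14 (hα0 i)
  have hmaps : ∀ g ∈ S, f g ∈ (t : Set (Fin 3 → L)) := by
    intro g hg
    rw [Finset.mem_coe, Fintype.mem_piFinset]
    intro i
    have h1 := (key g hg).2 i
    have h2 : (f g i - 1) * (f g i + 1) = 0 := by linear_combination h1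
    rw [Finset.mem_insert, Finset.mem_singleton]
    rcases mul_eq_zero.1 h2 with h3 | h3
    · left; exact sub_eq_zero.1 h3
    · right; exact eq_neg_of_add_eq_zero_left h3
  have hinj : Set.InjOn f S := by
    intro g hg g2 hg2 h
    have h1 := (key g hg).1
    have h2 := (key g2 hg2).1
    rw [h, ← h2] at h1
    have h3 : ∀ X : Matrix (Fin 3) (Fin 3) L, P * (Q * X * P) * Q = X := by
      intro X
      calc P * (Q * X * P) * Q = (P * Q) * X * (P * Q) := by simp only [Matrix.mul_assoc]
        _ = X := by rw [hQ1, Matrix.one_mul, Matrix.mul_one]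
    have h4 : g.map φ = g2.map φ := by
      rw [← h3 (g.map φ), h1, h3]
    ext i j
    have h5 := congrFun (congrFun h4 i) j
    exact hφ h5
  have ht : t.card ≤ 8 := by
    rw [Fintype.card_piFinset]
    calc ∏ _i : Fin 3, ({1, -1} : Finset L).card ≤ ∏ _i : Fin 3, 2 :=
          Finset.prod_le_prod' fun i _ => Finset.card_le_two
      _ = 8 := by simp
  refine ⟨Set.Finite.of_injOn hmaps hinj t.finite_toSet, ?_⟩
  refine (Set.ncard_le_ncard_of_injOn f hmaps hinj t.finite_toSet).trans ?_
  rw [Set.ncard_coe_finset]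
  exact ht

end Pool.AVR
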